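import Mathlib

set_option autoImplicit false

namespace Pool.Agent.Results.MP_859259_nt.ResidueOneMissed

/-- Q1 is false: `binom (3 n + 2) (n + 1)` is always even. -/
theorem result : ¬ ∀ (a b : ℕ) (α β : ℤ) (p : ℕ), 0 < b → b < a → p.Prime → Nat.Coprime p a →
    ∀ r : ℕ, r < p →
      {n : ℕ | 0 < n ∧ 0 ≤ (b : ℤ) * n + β ∧ (b : ℤ) * n + β ≤ (a : ℤ) * n + α ∧
        Nat.choose ((a : ℤ) * n + α).toNat ((b : ℤ) * n + β).toNat ≡ r [MOD p]}.Infinite := by
  intro h
  have h1 := h 3 1 2 1 2 (by norm_num) (by norm_num) (by norm_num) (by norm_num) 1 (by norm_num)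
  obtain ⟨n, -, -, -, hn⟩ := h1.nonempty
  have e1 : (((3 : ℕ) : ℤ) * n + 2).toNat = 3 * n + 2 := by omega
  have e2 : (((1 : ℕ) : ℤ) * n + 1).toNat = n + 1 := by omega
  rw [e1, e2] at hn
  have key := Nat.choose_mul_succ_eq (3 * n + 2) (n + 1)
  have e3 : 3 * n + 2 + 1 - (n + 1) = 2 * (n + 1) := by omega
  rw [e3] at key
  have h3 : (3 * n + 2).choose (n + 1) * 3 = (3 * n + 2 + 1).choose (n + 1) * 2 := by
    apply Nat.eq_of_mul_eq_mul_right (show 0 < n + 1 by omega)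
    calc (3 * n + 2).choose (n + 1) * 3 * (n + 1) = (3 * n + 2).choose (n + 1) * (3 * n + 2 + 1) := by
          ring
      _ = (3 * n + 2 + 1).choose (n + 1) * (2 * (n + 1)) := key
      _ = _ := by ring
  unfold Nat.ModEq at hn
  omega

end Pool.Agent.Results.MP_859259_nt.ResidueOneMissed
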